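import Pool.Agent.MP_856573_co.H74.Bas

/-! The service theorem when no cut triangle is separating. -/

namespace Pool.Agent.MP_856573_co.H74

open Set
open Pool.Agent.MP_31805c_co.H47 (Mac)
open Pool.Agent.MP_31805c_co.H93 (Conn)

namespace Base

section Paths

variable {W : Type} {H : SimpleGraph W}

theorem hp_first {P : Set W} {A B : W} (h : HP H P A B) (hne : A ≠ B) : ∃ y ∈ P, H.Adj A y := by
  obtain ⟨q, m, hq, rfl, rfl, rfl⟩ := h
  have : 0 < m := Nat.pos_of_ne_zero fun e => hne (by rw [e])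
  exact ⟨q 1, ⟨1, this, rfl⟩, hq.adj 0 this⟩

theorem hp_inner {P : Set W} {A B e : W} (h : HP H P A B) (he : e ∈ P) (hA : e ≠ A)
    (hB : e ≠ B) : ∃ y ∈ P, ∃ z ∈ P, y ≠ z ∧ H.Adj e y ∧ H.Adj e z := by
  obtain ⟨q, m, hq, rfl, rfl, rfl⟩ := h
  obtain ⟨i, hi, rfl⟩ := he
  have hi' : i ≤ m := hi
  obtain ⟨j, rfl⟩ : ∃ j, i = j + 1 := Nat.exists_eq_succ_of_ne_zero fun e => hA (by rw [e])
  have hm : j + 1 < m := lt_of_le_of_ne hi' fun e => hB (by rw [e])
  refine ⟨q j, ⟨j, show j ≤ m by omega, rfl⟩, q (j + 2), ⟨j + 2, show j + 2 ≤ m by omega, rfl⟩,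
    fun e => ?_, (hq.adj j (by omega)).symm, hq.adj (j + 1) hm⟩
  have := hq.inj j (by omega) (j + 2) (by omega) e
  omega

end Paths

variable {V : Type} [DecidableEq V] {G : SimpleGraph V} {D : Finset V} {F : Finset (Finset V)}
  {T0 Hb : Finset V} {C : Finset (Finset V)} {A B : Finset V}

/-! ### Simplices -/

theorem mem_cx {x : Finset V} : x ∈ Cx F ↔ x.Nonempty ∧ ∃ f ∈ F, x ⊆ f := by
  unfold Cx
  simp only [Finset.mem_biUnion, Finset.mem_erase, Finset.mem_powerset,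
    Finset.nonempty_iff_ne_empty]
  exact ⟨fun ⟨f, h1, h2, h3⟩ => ⟨h2, f, h1, h3⟩, fun ⟨h2, f, h1, h3⟩ => ⟨f, h1, h2, h3⟩⟩

theorem fcard (h : Tri G D F) {f : Finset V} (hf : f ∈ F) : f.card = 3 := (h.face f hf).2.card_eq

theorem face_cx (h : Tri G D F) {f : Finset V} (hf : f ∈ F) : f ∈ Cx F :=
  mem_cx.2 ⟨Finset.card_pos.1 (by rw [fcard h hf]; omega), f, hf, Finset.Subset.refl _⟩

theorem cx_card (h : Tri G D F) {x : Finset V} (hx : x ∈ Cx F) :
    x.card = 1 ∨ x.card = 2 ∨ x.card = 3 := by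
  obtain ⟨h1, f, hf, h2⟩ := mem_cx.1 hx
  have := Finset.card_le_card h2
  have := fcard h hf
  have := h1.card_pos
  omega

theorem cx_face (h : Tri G D F) {x : Finset V} (hx : x ∈ Cx F) (h3 : x.card = 3) : x ∈ F := by
  obtain ⟨-, f, hf, h2⟩ := mem_cx.1 hx
  rwa [Finset.eq_of_subset_of_card_le h2 (by rw [fcard h hf, h3])]

theorem cx_sub (h : Tri G D F) {x : Finset V} (hx : x ∈ Cx F) : x ⊆ D := by
  obtain ⟨-, f, hf, h2⟩ := mem_cx.1 hx
  exact h2.trans (h.face f hf).1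

theorem filt (h : Tri G D F) {e f : Finset V} (he : e.card = 2) (hf : f ∈ F) (hef : e ⊆ f) :
    (F.filter fun g => e ⊆ g).card = 2 := by
  obtain ⟨u, w, huw, rfl⟩ := Finset.card_eq_two.1 he
  have hu : u ∈ f := hef (by simp)
  have hw : w ∈ f := hef (by simp)
  rw [← h.two u ((h.face f hf).1 hu) w ((h.face f hf).1 hw)
    ((h.face f hf).2.isClique hu hw huw)]
  congr 1
  refine Finset.filter_congr fun g _ => ?_
  simp [Finset.insert_subset_iff]

theorem two3 (h : Tri G D F) {e f1 f2 f3 : Finset V} (he : e.card = 2) (h1 : f1 ∈ F)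
    (h2 : f2 ∈ F) (h3 : f3 ∈ F) (e1 : e ⊆ f1) (e2 : e ⊆ f2) (e3 : e ⊆ f3) (h12 : f1 ≠ f2) :
    f3 = f1 ∨ f3 = f2 := by
  have hs : ({f1, f2} : Finset (Finset V)) ⊆ F.filter fun g => e ⊆ g := by
    intro g hg
    rcases Finset.mem_insert.1 hg with rfl | hg
    · exact Finset.mem_filter.2 ⟨h1, e1⟩
    · rw [Finset.mem_singleton.1 hg]
      exact Finset.mem_filter.2 ⟨h2, e2⟩
  have := Finset.eq_of_subset_of_card_le hs (by rw [filt h he h1 e1, Finset.card_pair h12])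
  have h4 : f3 ∈ ({f1, f2} : Finset (Finset V)) := this ▸ Finset.mem_filter.2 ⟨h3, e3⟩
  simpa using h4

theorem other (h : Tri G D F) {e f : Finset V} (he : e.card = 2) (hf : f ∈ F) (hef : e ⊆ f) :
    ∃ f' ∈ F, f' ≠ f ∧ e ⊆ f' := by
  obtain ⟨f', h1, h2⟩ := Finset.exists_mem_ne (s := F.filter fun g => e ⊆ g)
    (by rw [filt h he hf hef]; omega) f
  exact ⟨f', (Finset.mem_filter.1 h1).1, h2, (Finset.mem_filter.1 h1).2⟩

theorem edge_face (h : Tri G D F) {u w : V} (hu : u ∈ D) (hw : w ∈ D) (huw : G.Adj u w) :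
    ∃ f ∈ F, u ∈ f ∧ w ∈ f := by
  obtain ⟨f, hf⟩ := Finset.card_pos.1
    (show 0 < (F.filter fun f => u ∈ f ∧ w ∈ f).card by rw [h.two u hu w hw huw]; omega)
  exact ⟨f, (Finset.mem_filter.1 hf).1, (Finset.mem_filter.1 hf).2⟩

omit [DecidableEq V] in
theorem st3 {z f : Finset V} (hf : f.card = 3) : St Hb z f ↔
    z ⊆ f ∧ ((z.card = 1 ∧ Disjoint z Hb) ∨ (z.card = 2 ∧ ¬ Disjoint z Hb)) := by
  unfold St
  simp [hf]

omit [DecidableEq V] in
theorem st_lt {x y : Finset V} (h : St Hb x y) : x ⊂ y := by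
  refine Finset.ssubset_iff_subset_ne.2 ⟨h.1, fun e => ?_⟩
  subst e
  rcases h.2 with h | h | h <;> omega

theorem st_cx {x y : Finset V} (h : St Hb x y) (hy : y ∈ Cx F) : x ∈ Cx F := by
  obtain ⟨-, f, hf, h2⟩ := mem_cx.1 hy
  refine mem_cx.2 ⟨Finset.card_pos.1 ?_, f, hf, h.1.trans h2⟩
  rcases h.2 with h | h | h <;> omega

/-! ### The auxiliary graph -/

/-- The barycentric subdivision, with the steps of the curve only inside `U`. -/
def Om (F : Finset (Finset V)) (Hb : Finset V) (U : Set (Finset V)) : SimpleGraph (Finset V) where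
  Adj x y := (Yg F).Adj x y ∧ (x ∈ U → y ∈ U → (Tk Hb).Adj x y)
  symm := ⟨fun _ _ h => ⟨h.1.symm, fun a b => (h.2 b a).symm⟩⟩
  loopless := ⟨fun _ h => h.1.ne rfl⟩

theorem om_tk {U : Set (Finset V)} {x y : Finset V} (hx : x ∈ Cx F) (hy : y ∈ Cx F)
    (h : (Tk Hb).Adj x y) : (Om F Hb U).Adj x y :=
  ⟨⟨hx, hy, Or.imp st_lt st_lt h⟩, fun _ _ => h⟩

theorem om_out {U : Set (Finset V)} {x y : Finset V} (hx : x ∈ Cx F) (hy : y ∈ Cx F)
    (h : x ⊂ y ∨ y ⊂ x) (hU : ¬ (x ∈ U ∧ y ∈ U)) : (Om F Hb U).Adj x y :=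
  ⟨⟨hx, hy, h⟩, fun a b => absurd ⟨a, b⟩ hU⟩

/-! ### Main tokens -/

theorem mn_cx (h : Tri G D F) (hd : ∀ v ∈ D, ∃ f ∈ F, v ∈ f) {z : Finset V}
    (hz : z ∈ Mn D F Hb) : z ∈ Cx F := by
  rcases hz with ⟨v, hv, -, rfl⟩ | hz
  · obtain ⟨f, hf, hvf⟩ := hd v hv
    exact mem_cx.2 ⟨by simp, f, hf, by simpa using hvf⟩
  · exact face_cx h hz.1

theorem mn_ins (h : Tri G D F) (hd : ∀ v ∈ D, ∃ f ∈ F, v ∈ f) {z : Finset V}
    (hz : z ∈ Mn D F Hb) (h0 : ¬ z ⊆ T0) : z ∈ Ins F T0 Hb C := by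
  refine ⟨mn_cx h hd hz, h0, ?_⟩
  rcases hz with ⟨v, -, hv, rfl⟩ | hz
  · exact ⟨fun _ => by simpa using hv, fun e => by simp at e⟩
  · exact ⟨fun e => by have := fcard h hz.1; omega, fun _ => Or.inl hz.2⟩

theorem one_mn (h : Tri G D F) {z : Finset V} (hz : z ∈ Cx F) (h1 : z.card = 1)
    (h2 : Disjoint z Hb) : z ∈ Mn D F Hb := by
  obtain ⟨v, rfl⟩ := Finset.card_eq_one.1 h1
  exact Or.inl ⟨v, cx_sub h hz (by simp), by simpa using h2, rfl⟩

theorem ins_mn (h : Tri G D F) {z : Finset V} (hz : z ∈ Ins F T0 Hb C) (h2 : z.card ≠ 2) :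
    z ∈ Mn D F Hb ∨ (z ∈ C ∧ Disjoint z Hb) := by
  rcases cx_card h hz.1 with h1 | h1 | h1
  · exact Or.inl (one_mn h hz.1 h1 (hz.2.2.1 h1))
  · exact absurd h1 h2
  · by_cases hh : Disjoint z Hb
    · exact Or.inr ⟨(hz.2.2.2 h1).resolve_left (not_not.2 hh), hh⟩
    · exact Or.inl (Or.inr ⟨cx_face h hz.1 h1, hh⟩)

theorem mn_sub (h : Tri G D F) (h0 : T0 ∈ F) {z : Finset V} (hz : z ∈ Mn D F Hb) (hs : z ⊆ T0) :
    z = T0 ∨ (z.card = 1 ∧ Disjoint z Hb) := by
  rcases hz with ⟨v, -, hv, rfl⟩ | hz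
  · exact Or.inr ⟨by simp, by simpa using hv⟩
  · exact Or.inl (Finset.eq_of_subset_of_card_le hs (by rw [fcard h h0, fcard h hz.1]))

theorem mn_st (h : Tri G D F) {x y : Finset V} (hx : x ∈ Mn D F Hb) (hy : y ∈ Mn D F Hb)
    (hxy : x ⊂ y) : St Hb x y := by
  have hc := Finset.card_lt_card hxy
  rcases hx with ⟨v, -, hv, rfl⟩ | hx <;> rcases hy with ⟨w, -, -, rfl⟩ | hy
  · simp at hc
  · exact (st3 (fcard h hy.1)).2 ⟨hxy.subset, Or.inl ⟨by simp, by simpa using hv⟩⟩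
  · have := fcard h hx.1
    simp only [Finset.card_singleton] at hc
    omega
  · have := fcard h hx.1
    have := fcard h hy.1
    omega

/-- The neighbours of an edge without hub are its ends. -/
theorem nb_edge {u w : V} (huw : u ≠ w) (hh : Disjoint ({u, w} : Finset V) Hb) {z : Finset V}
    (hz : (Tk Hb).Adj {u, w} z) : z = {u} ∨ z = {w} := by
  have hc := Finset.card_pair huw
  rcases hz with ⟨-, h | h | h⟩ | ⟨hs, h | h | h⟩
  · omega
  · omega
  · exact absurd hh h.2.2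
  · obtain ⟨v, rfl⟩ := Finset.card_eq_one.1 h.1
    have : v = u ∨ v = w := by simpa using hs
    rcases this with rfl | rfl <;> simp
  · omega
  · omega

/-- The neighbours of an edge with a hub are faces. -/
theorem nb_hub {e z : Finset V} (he : e.card = 2) (hh : ¬ Disjoint e Hb)
    (hz : (Tk Hb).Adj e z) : z.card = 3 ∧ e ⊆ z := by
  rcases hz with ⟨hs, h | h | h⟩ | ⟨-, h | h | h⟩
  · omega
  · omega
  · exact ⟨h.2.1, hs⟩
  · exact absurd h.2.2 hh
  · omega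
  · omega

theorem edge_ins {e : Finset V} (hx : e ∈ Cx F) (he : e.card = 2) (h0 : ¬ e ⊆ T0) :
    e ∈ Ins F T0 Hb C := ⟨hx, h0, fun h => by omega, fun h => by omega⟩

/-- Two adjacent main tokens are joined by a step or through an edge token. -/
theorem step (h : Tri G D F) (h0 : T0 ∈ F) {x y : Finset V} (hx : x ∈ Mn D F Hb)
    (hy : y ∈ Mn D F Hb) (hxy : Xa G Hb x y) (hx0 : x ≠ T0) (hn : ¬ x ⊆ T0 ∨ ¬ y ⊆ T0) :
    (Tk Hb).Adj x y ∨ (∃ e ∈ Ins F T0 Hb C, (Tk Hb).Adj x e ∧ (Tk Hb).Adj e y ∧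
      ∀ z ∈ Cx F, (Tk Hb).Adj e z → z = x ∨ z = y) ∨ y = T0 := by
  rcases hxy with ⟨u, w, huw, rfl, rfl⟩ | hxy | hxy | ⟨h2, hh⟩
  · have key : ∀ v, ({v} : Finset V) ∈ Mn D F Hb → v ∈ D ∧ v ∉ Hb := by
      rintro v (⟨v', h1, h2, e⟩ | hv)
      · rw [Finset.singleton_injective e]
        exact ⟨h1, h2⟩
      · have := fcard h hv.1
        simp at this
    obtain ⟨hu, hu'⟩ := key u hx
    obtain ⟨hw, hw'⟩ := key w hy
    obtain ⟨f, hf, h1, h2⟩ := edge_face h hu hw huw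
    have hh : Disjoint ({u, w} : Finset V) Hb := by simp [hu', hw']
    have hc := Finset.card_pair huw.ne
    refine Or.inr (Or.inl ⟨{u, w}, edge_ins (mem_cx.2 ⟨by simp, f, hf, ?_⟩) hc ?_,
      Or.inl ⟨by simp, Or.inl ⟨by simp, hc, hh⟩⟩, Or.inr ⟨by simp, Or.inl ⟨by simp, hc, hh⟩⟩,
      fun z _ hz => nb_edge huw.ne hh hz⟩)
    · simp [Finset.insert_subset_iff, h1, h2]
    · intro hs
      rcases hn with hn | hn
      · exact hn (Finset.Subset.trans (by simp) hs)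
      · exact hn (Finset.Subset.trans (by simp) hs)
  · exact Or.inl (Or.inl (mn_st h hx hy hxy))
  · exact Or.inl (Or.inr (mn_st h hy hx hxy))
  · have key : ∀ z ∈ Mn D F Hb, 2 ≤ z.card → z ∈ F := by
      rintro z (⟨v, -, -, rfl⟩ | hz) hc
      · simp at hc
      · exact hz.1
    have hxF := key x hx (h2 ▸ Finset.card_le_card Finset.inter_subset_left)
    have hyF := key y hy (h2 ▸ Finset.card_le_card Finset.inter_subset_right)
    by_cases hy0 : y = T0
    · exact Or.inr (Or.inr hy0)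
    have hne : x ≠ y := by
      rintro rfl
      rw [Finset.inter_self, fcard h hxF] at h2
      omega
    have s1 : St Hb (x ∩ y) x := (st3 (fcard h hxF)).2 ⟨Finset.inter_subset_left, Or.inr ⟨h2, hh⟩⟩
    have s2 : St Hb (x ∩ y) y := (st3 (fcard h hyF)).2 ⟨Finset.inter_subset_right, Or.inr ⟨h2, hh⟩⟩
    refine Or.inr (Or.inl ⟨x ∩ y, edge_ins (st_cx s1 (face_cx h hxF)) h2 fun hs => ?_,
      Or.inr s1, Or.inl s2, fun z hz hz' => ?_⟩)
    · rcases two3 h h2 hxF hyF h0 s1.1 s2.1 hs hne with e | e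
      · exact hx0 e.symm
      · exact hy0 e.symm
    · obtain ⟨z3, zs⟩ := nb_hub h2 hh hz'
      exact two3 h h2 hxF hyF (cx_face h hz z3) s1.1 s2.1 zs hne

/-! ### The ground set -/

theorem u_cx (h : Tri G D F) (h0 : T0 ∈ F) (hA : St Hb A T0) (hB : St Hb B T0) {x : Finset V}
    (hx : x ∈ Ins F T0 Hb C ∪ {A, B}) : x ∈ Cx F := by
  rcases hx with hx | rfl | rfl
  exacts [hx.1, st_cx hA (face_cx h h0), st_cx hB (face_cx h h0)]

theorem u_sub {x : Finset V} (hx : x ∈ Ins F T0 Hb C ∪ {A, B}) (hs : x ⊆ T0) : x = A ∨ x = B :=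
  hx.resolve_left fun h => h.2.1 hs

theorem t0_not (hA : St Hb A T0) (hB : St Hb B T0) : T0 ∉ Ins F T0 Hb C ∪ {A, B} := fun hx => by
  rcases u_sub hx (Finset.Subset.refl _) with e | e
  exacts [(st_lt hA).ne e.symm, (st_lt hB).ne e.symm]

/-- The inner face at an edge of the root face that has a hub. -/
theorem inner (h : Tri G D F) (h0 : T0 ∈ F) {e : Finset V} (hs : e ⊆ T0) (he : e.card = 2)
    (hh : ¬ Disjoint e Hb) : ∃ f ∈ Mn D F Hb, f ∈ F ∧ ¬ f ⊆ T0 ∧ St Hb e f := by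
  obtain ⟨f, hf, hne, hef⟩ := other h he h0 hs
  exact ⟨f, Or.inr ⟨hf, fun hd => hh (hd.mono_left hef)⟩, hf,
    fun hs => hne (Finset.eq_of_subset_of_card_le hs (by rw [fcard h h0, fcard h hf])),
    (st3 (fcard h hf)).2 ⟨hef, Or.inr ⟨he, hh⟩⟩⟩

/-- The form in which the connectivity statement is used. -/
def Con (G : SimpleGraph V) (D : Finset V) (F : Finset (Finset V)) (Hb : Finset V) : Prop :=
  ∀ K N : Set (Finset V), K ⊆ Mn D F Hb → K.Nonempty → N.ncard ≤ 3 →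
    Disjoint K N → (∀ x ∈ K, ∀ y ∈ Mn D F Hb, Xa G Hb x y → y ∈ K ∪ N) → Mn D F Hb ⊆ K ∪ N

theorem connAB (h : Tri G D F) (h0 : T0 ∈ F) (hd : ∀ v ∈ D, ∃ f ∈ F, v ∈ f)
    (hg : ∀ v ∈ T0, ∃ w ∈ D, w ∉ T0 ∧ G.Adj v w) (con : Con G D F Hb) (hA : St Hb A T0)
    (hB : St Hb B T0) :
    Conn (Om F Hb (Ins F T0 Hb C ∪ {A, B})) (Ins F T0 Hb C ∪ {A, B}) A B := by
  set U := Ins F T0 Hb C ∪ {A, B} with hU
  have hAU : A ∈ U := Or.inr (Or.inl rfl)
  have hBU : B ∈ U := Or.inr (Or.inr rfl)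
  have adj : ∀ x ∈ U, ∀ y ∈ U, (Tk Hb).Adj x y → Conn (Om F Hb U) U x y := fun x hx y hy a =>
    Conn.adj (om_tk (u_cx h h0 hA hB hx) (u_cx h h0 hA hB hy) a) hx hy
  by_contra hc
  have c3 := fcard h h0
  have all := con {z | z ∈ Mn D F Hb ∧ Conn (Om F Hb U) U A z}
    {z | z ∈ Mn D F Hb ∧ z ⊆ T0 ∧ z ≠ A} (fun _ hz => hz.1) ?_ ?_ ?_ ?_
  · have all' : ∀ z ∈ Mn D F Hb, ¬ z ⊆ T0 → Conn (Om F Hb U) U A z := fun z hz hs =>
      ((all hz).resolve_right fun h => hs h.2.1).2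
    rcases ((st3 c3).1 hB).2 with ⟨h1, hh⟩ | ⟨h2, hh⟩
    · obtain ⟨c, rfl⟩ := Finset.card_eq_one.1 h1
      obtain ⟨w, hw, hw0, hcw⟩ := hg c (hB.1 (by simp))
      have hcM : ({c} : Finset V) ∈ Mn D F Hb := one_mn h (u_cx h h0 hA hB hBU) h1 hh
      by_cases hwH : w ∈ Hb
      · obtain ⟨f, hf, h3, h4⟩ := edge_face h ((h.face _ h0).1 (hB.1 (by simp))) hw hcw
        have hfM : f ∈ Mn D F Hb := Or.inr ⟨hf, Finset.not_disjoint_iff.2 ⟨w, h4, hwH⟩⟩
        have hf0 : ¬ f ⊆ T0 := fun hs => hw0 (hs h4)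
        exact hc ((all' f hfM hf0).trans (adj f (Or.inl (mn_ins h hd hfM hf0)) _ hBU
          (Or.inr ((st3 (fcard h hf)).2 ⟨by simpa using h3, Or.inl ⟨h1, hh⟩⟩))))
      · have hwM : ({w} : Finset V) ∈ Mn D F Hb := Or.inl ⟨w, hw, hwH, rfl⟩
        have hw1 : ¬ ({w} : Finset V) ⊆ T0 := by simpa using hw0
        have hwU : ({w} : Finset V) ∈ U := Or.inl (mn_ins h hd hwM hw1)
        rcases step (C := C) h h0 hwM hcM (Or.inl ⟨w, c, hcw.symm, rfl, rfl⟩)
          (fun e => hw1 e.subset) (Or.inl hw1) with a | ⟨e, he, a1, a2, -⟩ | e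
        · exact hc ((all' _ hwM hw1).trans (adj _ hwU _ hBU a))
        · exact hc ((all' _ hwM hw1).trans ((adj _ hwU _ (Or.inl he) a1).trans
            (adj _ (Or.inl he) _ hBU a2)))
        · exact (st_lt hB).ne e
    · obtain ⟨f, hfM, -, hf0, hs⟩ := inner h h0 hB.1 h2 hh
      exact hc ((all' f hfM hf0).trans (adj f (Or.inl (mn_ins h hd hfM hf0)) _ hBU (Or.inr hs)))
  · rcases ((st3 c3).1 hA).2 with ⟨h1, hh⟩ | ⟨h2, hh⟩
    · exact ⟨A, one_mn h (u_cx h h0 hA hB hAU) h1 hh, Conn.refl _ _⟩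
    · obtain ⟨f, hfM, -, hf0, hs⟩ := inner h h0 hA.1 h2 hh
      exact ⟨f, hfM, adj _ hAU f (Or.inl (mn_ins h hd hfM hf0)) (Or.inl hs)⟩
  · obtain ⟨a, ha, ha'⟩ : ∃ a ∈ T0, a ∈ Hb ∨ A = {a} := by
      rcases ((st3 c3).1 hA).2 with ⟨h1, -⟩ | ⟨-, hh⟩
      · obtain ⟨a, rfl⟩ := Finset.card_eq_one.1 h1
        exact ⟨a, hA.1 (by simp), Or.inr rfl⟩
      · obtain ⟨a, h1, h2⟩ := Finset.not_disjoint_iff.1 hh
        exact ⟨a, hA.1 h1, Or.inl h2⟩
    have hs : {z | z ∈ Mn D F Hb ∧ z ⊆ T0 ∧ z ≠ A} ⊆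
        insert T0 ((fun v => ({v} : Finset V)) '' (T0.erase a : Finset V)) := by
      rintro z ⟨h1, h2, h3⟩
      rcases mn_sub h h0 h1 h2 with e | ⟨h4, h5⟩
      · exact Or.inl e
      · obtain ⟨v, rfl⟩ := Finset.card_eq_one.1 h4
        refine Or.inr ⟨v, Finset.mem_coe.2 (Finset.mem_erase.2 ⟨?_, h2 (by simp)⟩), rfl⟩
        rintro rfl
        rcases ha' with e | e
        · exact Finset.disjoint_left.1 h5 (by simp) e
        · exact h3 e.symm
    have h1 := ncard_le_ncard hs (((T0.erase a).finite_toSet.image _).insert _)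
    have h2 := ncard_insert_le T0 ((fun v => ({v} : Finset V)) '' (T0.erase a : Finset V))
    have h3 := ncard_image_le (f := fun v => ({v} : Finset V)) (T0.erase a).finite_toSet
    rw [ncard_coe_finset, Finset.card_erase_of_mem ha] at h3
    omega
  · rw [disjoint_left]
    rintro z ⟨-, h1⟩ ⟨-, h2, h3⟩
    rcases u_sub (h1.mem hAU) h2 with e | e
    · exact h3 e
    · exact hc (e ▸ h1)
  · rintro x ⟨hx, hx'⟩ y hy hxy
    have hxU := hx'.mem hAU
    by_cases hs : y ⊆ T0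
    · by_cases e : y = A
      · exact Or.inl ⟨hy, e ▸ Conn.refl _ _⟩
      · exact Or.inr ⟨hy, hs, e⟩
    have hyU : y ∈ U := Or.inl (mn_ins h hd hy hs)
    rcases step (C := C) h h0 hx hy hxy (fun e => t0_not hA hB (e ▸ hxU)) (Or.inr hs) with
      a | ⟨e, he, a1, a2, -⟩ | e
    · exact Or.inl ⟨hy, hx'.trans (adj _ hxU _ hyU a)⟩
    · exact Or.inl ⟨hy, hx'.trans ((adj _ hxU _ (Or.inl he) a1).trans (adj _ (Or.inl he) _ hyU a2))⟩
    · exact absurd e.subset hs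

/-- No main token is missed. -/
theorem miss [Fintype V] (h : Tri G D F) (h0 : T0 ∈ F) (hd : ∀ v ∈ D, ∃ f ∈ F, v ∈ f)
    (con : Con G D F Hb) (hA : St Hb A T0) (hB : St Hb B T0) (hne : A ≠ B)
    (h3 : 3 ≤ {z | St Hb z T0}.ncard) (h4 : ¬ Disjoint T0 Hb → 4 ≤ {z | St Hb z T0}.ncard)
    {P : Set (Finset V)} (hP : P ⊆ Ins F T0 Hb C ∪ {A, B})
    (hp : HP (Om F Hb (Ins F T0 Hb C ∪ {A, B})) P A B) {v : Finset V} (hv : v ∈ Mn D F Hb)
    (hvU : v ∈ (Ins F T0 Hb C ∪ {A, B}) \ P)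
    (hc : (At (Om F Hb (Ins F T0 Hb C ∪ {A, B})) ((Ins F T0 Hb C ∪ {A, B}) \ P) P v).ncard +
      (At (Om F Hb (Ins F T0 Hb C ∪ {A, B})) ((Ins F T0 Hb C ∪ {A, B}) \ P)
        {z | St Hb z T0 ∧ z ≠ A ∧ z ≠ B} v).ncard ≤ 3) : False := by
  set U := Ins F T0 Hb C ∪ {A, B} with hU
  set S := At (Om F Hb U) (U \ P) P v ∪
    At (Om F Hb U) (U \ P) {z | St Hb z T0 ∧ z ≠ A ∧ z ≠ B} v with hS
  have hS3 : S.ncard ≤ 3 := (ncard_union_le _ _).trans hc
  have c3 := fcard h h0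
  have cx : ∀ x ∈ U, x ∈ Cx F := fun x hx => u_cx h h0 hA hB hx
  have cx0 := face_cx h h0
  have nT : T0 ∉ U := t0_not hA hB
  have out : ∀ x ∈ U \ P, ¬ x ⊆ T0 := by
    rintro x ⟨hx, hx'⟩ hs
    rcases u_sub hx hs with rfl | rfl
    exacts [hx' hp.left, hx' hp.right]
  -- a neighbour of the component that is not in the component is an attachment
  have att : ∀ x, Conn (Om F Hb U) (U \ P) v x → ∀ y, (y ∈ U ∨ St Hb y T0) →
      (Tk Hb).Adj x y → Conn (Om F Hb U) (U \ P) v y ∨ y ∈ S := by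
    intro x hx y hy a
    have hxU := hx.mem hvU
    have a' : (Om F Hb U).Adj x y :=
      om_tk (cx x hxU.1) (hy.elim (cx y) fun s => st_cx s cx0) a
    by_cases hyP : y ∈ P
    · exact Or.inr (Or.inl ⟨hyP, x, hx, a'⟩)
    by_cases hyU : y ∈ U
    · exact Or.inl (hx.trans (Conn.adj a' hxU ⟨hyU, hyP⟩))
    · exact Or.inr (Or.inr ⟨⟨hy.resolve_left hyU, fun e => hyP (e ▸ hp.left),
        fun e => hyP (e ▸ hp.right)⟩, x, hx, a'⟩)
  have all := con {z | z ∈ Mn D F Hb ∧ Conn (Om F Hb U) (U \ P) v z}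
    ((fun z => if z.card = 2 then T0 else z) '' S) (fun _ hz => hz.1) ⟨v, hv, Conn.refl _ _⟩
    ((ncard_image_le (toFinite _)).trans hS3) ?_ ?_
  · have all' : ∀ z ∈ Mn D F Hb, z ≠ T0 → Conn (Om F Hb U) (U \ P) v z ∨ z ∈ S := by
      intro z hz hz0
      rcases all hz with hk | ⟨s, hs, e⟩
      · exact Or.inl hk.2
      · by_cases h2 : s.card = 2
        · exact absurd (by simpa [h2] using e.symm) hz0
        · have e' : s = z := by simpa [h2] using e
          exact Or.inr (e' ▸ hs)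
    have onP : ∀ z ∈ Mn D F Hb, z ∈ P → z ∈ S := fun z hz hzP =>
      (all' z hz fun e => nT (e ▸ hP hzP)).resolve_left fun hk => (hk.mem hvU).2 hzP
    have cor : ∀ z, St Hb z T0 → z.card = 1 → z ∈ S := by
      intro z hz h1
      have hh : Disjoint z Hb := by
        rcases ((st3 c3).1 hz).2 with h | h
        · exact h.2
        · omega
      exact (all' z (one_mn h (st_cx hz cx0) h1 hh) (st_lt hz).ne).resolve_left
        fun hk => out z (hk.mem hvU) hz.1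
    by_cases hh : Disjoint T0 Hb
    · have one : ∀ z, St Hb z T0 → z.card = 1 := by
        intro z hz
        rcases ((st3 c3).1 hz).2 with h | h
        · exact h.1
        · exact absurd (hh.mono_left hz.1) h.2
      obtain ⟨s, hs, hs0⟩ : ∃ s ∈ S, ¬ s ⊆ T0 := by
        obtain ⟨y, hyP, a⟩ := hp_first hp hne
        have a' := a.2 (hP hp.left) (hP hyP)
        have hA1 := one A hA
        have hst : St Hb A y := by
          rcases a' with a' | ⟨-, a' | a' | a'⟩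
          · exact a'
          all_goals omega
        have hy0 : ¬ y ⊆ T0 := by
          intro hs
          have := Finset.card_lt_card (st_lt hst)
          rcases u_sub (hP hyP) hs with rfl | rfl
          · omega
          · have := one _ hB
            omega
        have hyI : y ∈ Ins F T0 Hb C := (hP hyP).resolve_right (by
          rintro (rfl | rfl)
          exacts [hy0 hA.1, hy0 hB.1])
        obtain ⟨w, hw, hw0⟩ := Finset.not_subset.1 hy0
        have hw1 : ¬ ({w} : Finset V) ⊆ T0 := by simpa using hw0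
        have hwM : Disjoint y Hb → ({w} : Finset V) ∈ Mn D F Hb := fun hd' =>
          Or.inl ⟨w, cx_sub h hyI.1 hw, Finset.disjoint_left.1 hd' hw, rfl⟩
        have fin : Disjoint y Hb → St Hb {w} y → ∃ s ∈ S, ¬ s ⊆ T0 := by
          intro hd' s
          rcases all' _ (hwM hd') (fun e => hw1 e.subset) with hk | hk
          · refine ⟨y, ?_, hy0⟩
            exact (att _ hk y (Or.inl (hP hyP)) (Or.inl s)).resolve_left
              fun hk => (hk.mem hvU).2 hyP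
          · exact ⟨_, hk, hw1⟩
        by_cases h2 : y.card = 2
        · have hd' : Disjoint y Hb := by
            rcases hst.2 with a | a | a
            · exact a.2.2
            all_goals omega
          exact fin hd' ⟨by simpa using hw, Or.inl ⟨by simp, h2, hd'⟩⟩
        · rcases ins_mn h hyI h2 with hm | ⟨-, hd'⟩
          · exact ⟨y, onP y hm hyP, hy0⟩
          · have y3 : y.card = 3 := by
              rcases hst.2 with a | a | a <;> omega
            exact fin hd' ((st3 y3).2 ⟨by simpa using hw, Or.inl ⟨by simp,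
              hd'.mono_left (by simpa using hw)⟩⟩)
      have hsub : insert s {z | St Hb z T0} ⊆ S := by
        rintro z (rfl | hz)
        exacts [hs, cor z hz (one z hz)]
      have h5 := ncard_le_ncard hsub (toFinite _)
      rw [ncard_insert_of_notMem (fun hz => hs0 hz.1) (toFinite _)] at h5
      omega
    · have ex : ∀ z, St Hb z T0 → ∃ s ∈ S, s = z ∨ (z.card = 2 ∧ s ∈ F ∧ ¬ s ⊆ T0 ∧ z ⊆ s) := by
        intro z hz
        rcases ((st3 c3).1 hz).2 with ⟨h1, -⟩ | ⟨h2, hh'⟩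
        · exact ⟨z, cor z hz h1, Or.inl rfl⟩
        · obtain ⟨f, hfM, hf, hf0, hs⟩ := inner h h0 hz.1 h2 hh'
          rcases all' f hfM (fun e => hf0 e.subset) with hk | hk
          · exact ⟨z, (att f hk z (Or.inr hz) (Or.inr hs)).resolve_left
              fun hk => out z (hk.mem hvU) hz.1, Or.inl rfl⟩
          · exact ⟨f, hk, Or.inr ⟨h2, hf, hf0, hs.1⟩⟩
      choose! ψ hψ hψ' using ex
      have h5 := ncard_le_ncard_of_injOn (s := {z | St Hb z T0}) (t := S) ψ hψ (by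
        intro z hz z' hz' e
        rcases hψ' z hz with a | a <;> rcases hψ' z' hz' with b | b
        · rw [← a, e, b]
        · exact absurd (by rw [← e, a]; exact hz.1) b.2.2.1
        · exact absurd (by rw [e, b]; exact hz'.1) a.2.2.1
        · have hlt : (ψ z ∩ T0).card < (ψ z).card := Finset.card_lt_card
            (Finset.ssubset_iff_subset_ne.2 ⟨Finset.inter_subset_left,
              fun e' => a.2.2.1 (Finset.inter_eq_left.1 e')⟩)
          rw [fcard h a.2.1] at hlt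
          have e1 : z = ψ z ∩ T0 := Finset.eq_of_subset_of_card_le
            (Finset.subset_inter a.2.2.2 hz.1) (by omega)
          have e2 : z' = ψ z ∩ T0 := Finset.eq_of_subset_of_card_le
            (Finset.subset_inter (e ▸ b.2.2.2) hz'.1) (by omega)
          rw [e2]
          exact e1) (toFinite _)
      have := h4 hh
      omega
  · rw [disjoint_left]
    rintro _ ⟨-, hk⟩ ⟨s, hs, rfl⟩
    have hm := hk.mem hvU
    by_cases h2 : s.card = 2
    · simp only [h2, if_true] at hm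
      exact nT hm.1
    · simp only [h2, if_false] at hm
      rcases hs with hs | hs
      · exact hm.2 hs.1
      · exact out s hm hs.1.1.1
  · rintro x ⟨hx, hx'⟩ y hy hxy
    have hxU := hx'.mem hvU
    have hx0 := out x hxU
    by_cases hy0 : y = T0
    · subst hy0
      rcases hxy with ⟨u, w, -, -, e⟩ | a | a | ⟨h2, hh⟩
      · rw [e] at c3
        simp at c3
      · exact absurd a.subset hx0
      · have := Finset.card_lt_card a
        rcases cx_card h (cx x hxU.1) with a | a | a <;> omega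
      · have x3 : x.card = 3 := by
          have h1 : (x ∩ y).card < x.card := Finset.card_lt_card
            (Finset.ssubset_iff_subset_ne.2 ⟨Finset.inter_subset_left,
              fun e' => hx0 (Finset.inter_eq_left.1 e')⟩)
          rcases cx_card h (cx x hxU.1) with a | a | a <;> omega
        have s0 : St Hb (x ∩ y) y := (st3 c3).2 ⟨Finset.inter_subset_right, Or.inr ⟨h2, hh⟩⟩
        have s1 : St Hb (x ∩ y) x := (st3 x3).2 ⟨Finset.inter_subset_left, Or.inr ⟨h2, hh⟩⟩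
        exact Or.inr ⟨x ∩ y, (att x hx' _ (Or.inr s0) (Or.inr s1)).resolve_left
          fun hk => out _ (hk.mem hvU) s0.1, if_pos h2⟩
    have hyU : y ∈ U ∨ St Hb y T0 := by
      by_cases hs : y ⊆ T0
      · exact Or.inr ((st3 c3).2 ⟨hs, Or.inl ((mn_sub h h0 hy hs).resolve_left hy0)⟩)
      · exact Or.inl (Or.inl (mn_ins h hd hy hs))
    have y2 : y.card ≠ 2 := by
      rcases hy with ⟨w, -, -, rfl⟩ | hy
      · simp
      · rw [fcard h hy.1]
        omega
    have fin : ∀ x, Conn (Om F Hb U) (U \ P) v x → (Tk Hb).Adj x y →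
        y ∈ {z | z ∈ Mn D F Hb ∧ Conn (Om F Hb U) (U \ P) v z} ∪
          (fun z => if z.card = 2 then T0 else z) '' S := fun x hx a =>
      (att x hx y hyU a).elim (fun hk => Or.inl ⟨hy, hk⟩) fun hk => Or.inr ⟨y, hk, if_neg y2⟩
    rcases step (C := C) h h0 hx hy hxy (fun e => hx0 e.subset) (Or.inl hx0) with
      a | ⟨e, he, a1, a2, a3⟩ | e
    · exact fin x hx' a
    · have heP : e ∉ P := by
        intro heP
        obtain ⟨y1, p1, y2, p2, hne', b1, b2⟩ := hp_inner hp heP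
          (fun e' => he.2.1 (e' ▸ hA.1)) (fun e' => he.2.1 (e' ▸ hB.1))
        rcases a3 y1 (cx _ (hP p1)) (b1.2 (hP heP) (hP p1)) with e1 | e1
        · exact hxU.2 (e1 ▸ p1)
        rcases a3 y2 (cx _ (hP p2)) (b2.2 (hP heP) (hP p2)) with e2 | e2
        · exact hxU.2 (e2 ▸ p2)
        exact hne' (e1.trans e2.symm)
      exact fin e (hx'.trans (Conn.adj (om_tk (cx x hxU.1) he.1 a1) hxU ⟨Or.inl he, heP⟩)) a2
    · exact absurd e hy0

/-! ### The hexagon -/

/-- The model of the hexagon. -/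
def h0 : ZMod 6 → Finset (Fin 3) := (![{0}, {0, 1}, {1}, {1, 2}, {2}, {2, 0}] : Fin 6 → _)

/-- The admissible places of the hexagon. -/
def y0 (H : Finset (Fin 3)) : Finset (ZMod 6) := Finset.univ.filter fun i =>
  ((h0 i).card = 1 ∧ Disjoint (h0 i) H) ∨ ((h0 i).card = 2 ∧ ¬ Disjoint (h0 i) H)

theorem h0_inj : Function.Injective h0 := by decide

theorem h0_lt : ∀ i, h0 i ⊂ Finset.univ ∧ (h0 i).Nonempty := by decide

theorem h0_adj : ∀ i, h0 i ⊂ h0 (i + 1) ∨ h0 (i + 1) ⊂ h0 i := by decide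

theorem h0_surj : ∀ z : Finset (Fin 3), z.card = 1 ∨ z.card = 2 → ∃ i, h0 i = z := by decide

theorem y0_card : ∀ H : Finset (Fin 3), H ≠ Finset.univ →
    (y0 H).card ≤ 4 ∧ 3 ≤ (y0 H).card ∧ (H.Nonempty → 4 ≤ (y0 H).card) := by decide

theorem hexa (c3 : T0.card = 3) (hn : ¬ T0 ⊆ Hb) : ∃ (h : ZMod 6 → Finset V)
    (Y : Finset (ZMod 6)), Function.Injective h ∧ (∀ i, h i ⊂ T0 ∧ (h i).Nonempty) ∧
    (∀ i, h i ⊂ h (i + 1) ∨ h (i + 1) ⊂ h i) ∧ Y.card ≤ 4 ∧ 3 ≤ Y.card ∧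
    (¬ Disjoint T0 Hb → 4 ≤ Y.card) ∧ {z | St Hb z T0} = h '' Y := by
  obtain ⟨g, hg⟩ : ∃ g : Fin 3 ↪ V, T0 = Finset.univ.map g := by
    refine ⟨(T0.equivFinOfCardEq c3).symm.toEmbedding.trans (Function.Embedding.subtype _), ?_⟩
    ext x
    simp only [Finset.mem_map, Finset.mem_univ, true_and]
    exact ⟨fun hx => ⟨T0.equivFinOfCardEq c3 ⟨x, hx⟩, by simp⟩,
      fun ⟨i, e⟩ => e ▸ ((T0.equivFinOfCardEq c3).symm i).2⟩
  have dj : ∀ z : Finset (Fin 3),
      Disjoint (z.map g) Hb ↔ Disjoint z (Finset.univ.filter fun j => g j ∈ Hb) := by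
    intro z
    simp [Finset.disjoint_left]
  have hH : (Finset.univ.filter fun j => g j ∈ Hb) ≠ Finset.univ := by
    intro e
    refine hn fun x hx => ?_
    rw [hg] at hx
    obtain ⟨j, -, rfl⟩ := Finset.mem_map.1 hx
    exact (Finset.mem_filter.1 (e.symm ▸ Finset.mem_univ j :
      j ∈ Finset.univ.filter fun j => g j ∈ Hb)).2
  obtain ⟨k1, k2, k3⟩ := y0_card _ hH
  refine ⟨fun i => (h0 i).map g, y0 (Finset.univ.filter fun j => g j ∈ Hb),
    (Finset.map_injective g).comp h0_inj, fun i => ⟨?_, (h0_lt i).2.map⟩, fun i => ?_, k1, k2,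
    fun hh => k3 ?_, ?_⟩
  · rw [hg]
    exact Finset.map_ssubset_map.2 (h0_lt i).1
  · exact (h0_adj i).imp Finset.map_ssubset_map.2 Finset.map_ssubset_map.2
  · rw [hg, dj] at hh
    obtain ⟨j, -, hj⟩ := Finset.not_disjoint_iff.1 hh
    exact ⟨j, hj⟩
  · ext z
    simp only [mem_ofPred_eq, st3 c3, mem_image, Finset.mem_coe, y0, Finset.mem_filter,
      Finset.mem_univ, true_and]
    constructor
    · rintro ⟨hs, hz⟩
      rw [hg] at hs
      obtain ⟨u, -, rfl⟩ := Finset.subset_map_iff.1 hs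
      rw [Finset.card_map, dj] at hz
      obtain ⟨i, rfl⟩ := h0_surj u (hz.imp And.left And.left)
      exact ⟨i, hz, rfl⟩
    · rintro ⟨i, hi, rfl⟩
      rw [Finset.card_map, dj, hg]
      exact ⟨Finset.map_subset_map.2 (Finset.subset_univ _), hi⟩

end Base

open Base in
theorem base : StmtBASE := by
  intro tp tb sp yt hex con V _ _ G D F T0 Hb C A B hc he hC
  have h := hc.tri
  have h0 := hc.root
  have c3 := fcard h h0
  have cx0 := face_cx h h0
  have hA := he.hA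
  have hB := he.hB
  have hd : ∀ v ∈ D, ∃ f ∈ F, v ∈ f := by
    intro v hv
    obtain ⟨f, hf⟩ := Finset.card_pos.1
      (show 0 < (F.filter fun f => v ∈ f).card by have := (tb.deg V G D F h v hv).1; omega)
    exact ⟨f, (Finset.mem_filter.1 hf).1, (Finset.mem_filter.1 hf).2⟩
  have hg : ∀ v ∈ T0, ∃ w ∈ D, w ∉ T0 ∧ G.Adj v w := by
    intro v hv
    obtain ⟨a, ha, b, hb, c, hc', n1, n2, n3, a1, a2, a3⟩ :=
      (tb.deg V G D F h v ((h.face _ h0).1 hv)).2
    by_contra hcon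
    have k : ∀ w ∈ D, G.Adj v w → w ∈ T0.erase v := fun w hw a =>
      Finset.mem_erase.2 ⟨a.ne', by_contra fun h' => hcon ⟨w, hw, h', a⟩⟩
    have hs : ({a, b, c} : Finset V) ⊆ T0.erase v := by
      simp only [Finset.insert_subset_iff, Finset.singleton_subset_iff]
      exact ⟨k a ha a1, k b hb a2, k c hc' a3⟩
    have := Finset.card_le_card hs
    rw [Finset.card_erase_of_mem hv, Finset.card_eq_three.2 ⟨a, b, c, n1, n2, n3, rfl⟩] at this
    omega
  have cn : Con G D F Hb := fun K N => con tb V G D F Hb K N h hc.nd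
    fun T h1 h2 => (hc.hit T h1 h2).elim id (hC T)
  have nl : ∀ T' ∈ C, ∀ T, ¬ Lt (Inn G D T0) T T' := by
    rintro T' hT' T ⟨v, -, hv⟩
    rw [(sp.face V G D F T0 T' h h0 (hc.cT T' hT').1 (hc.cT T' hT').2).1 (hC T' hT')] at hv
    simp at hv
  obtain ⟨t, ht⟩ : ∃ t, ∀ T ∈ C, Disjoint T Hb → T = t := by
    by_cases hx : ∃ T ∈ C, Disjoint T Hb
    · obtain ⟨T, h1, h2⟩ := hx
      refine ⟨T, fun T' h3 h4 => by_contra fun hne => ?_⟩
      obtain ⟨T'', h5, h6⟩ := hc.uni T' h3 T h1 hne h4 h2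
      exact h6 (iff_of_false (nl _ h5 _) (nl _ h5 _))
    · exact ⟨T0, fun T h1 h2 => absurd ⟨T, h1, h2⟩ hx⟩
  obtain ⟨g, Y, gi, gl', ga, y4, y3, y4', hY⟩ := hexa c3 (hc.nd T0 (h.face _ h0))
  have gx : ∀ i, g i ∈ Cx F := fun i => mem_cx.2 ⟨(gl' i).2, T0, h0, (gl' i).1.subset⟩
  obtain ⟨a, ha, rfl⟩ : A ∈ g '' Y := hY ▸ hA
  obtain ⟨b, hb, rfl⟩ : B ∈ g '' Y := hY ▸ hB
  have hab : a ≠ b := fun e => he.ne (by rw [e])
  set U := Ins F T0 Hb C ∪ {g a, g b} with hU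
  have nT : T0 ∉ U := t0_not hA hB
  have gU : ∀ i, g i ∈ U ↔ i = a ∨ i = b := fun i =>
    ⟨fun hi => (u_sub hi (gl' i).1.subset).imp (fun e => gi e) fun e => gi e,
      fun hi => Or.inr (hi.imp (congrArg g) (congrArg g))⟩
  have hX : g '' ((Y.erase a).erase b : Finset (ZMod 6)) =
      {z | St Hb z T0 ∧ z ≠ g a ∧ z ≠ g b} := by
    ext z
    constructor
    · rintro ⟨i, hi, rfl⟩
      simp only [Finset.mem_coe, Finset.mem_erase] at hi
      refine ⟨?_, fun e => hi.2.1 (gi e), fun e => hi.1 (gi e)⟩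
      have : g i ∈ g '' Y := ⟨i, hi.2.2, rfl⟩
      rwa [← hY] at this
    · rintro ⟨h1, h2, h3⟩
      obtain ⟨i, hi, rfl⟩ : z ∈ g '' Y := hY ▸ h1
      refine ⟨i, ?_, rfl⟩
      simp only [Finset.mem_coe, Finset.mem_erase]
      exact ⟨fun e => h3 (by rw [e]), fun e => h2 (by rw [e]), hi⟩
  have hcard : {z | St Hb z T0}.ncard = Y.card := by
    rw [hY, ncard_image_of_injective _ gi, ncard_coe_finset]
  obtain ⟨P, hP, hp, hv⟩ := hex tp (Finset V) (Om F Hb U) U T0 t g a b ((Y.erase a).erase b)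
    (mac_mono (tb.mac _ _ _ _ (yt V G D F h)) fun x y a => ⟨a.1, a.1.1, a.1.2.1⟩) gi
    (fun i => om_out cx0 (gx i) (Or.inr (gl' i).1) fun k => nT k.1)
    (fun i => by
      by_cases k : g i ∈ U ∧ g (i + 1) ∈ U
      · have hne : i ≠ i + 1 := (by decide : ∀ i : ZMod 6, i ≠ i + 1) i
        rcases (gU _).1 k.1 with e | e <;> rcases (gU _).1 k.2 with e' | e'
        · exact absurd (e.trans e'.symm) hne
        · exact Or.inl ⟨e, e'⟩
        · exact Or.inr (Or.inl ⟨e, e'⟩)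
        · exact absurd (e.trans e'.symm) hne
      · exact Or.inr (Or.inr (om_out (gx _) (gx _) (ga i) k)))
    hab nT gU
    (fun u hu a => by
      rcases a.1.2.2 with s | s
      · have := Finset.card_lt_card s
        rcases cx_card h a.1.2.1 with k | k | k <;> omega
      · exact u_sub hu s.subset)
    (connAB h h0 hd hg cn hA hB)
    (by
      rw [Finset.card_erase_of_mem (Finset.mem_erase.2 ⟨hab.symm, hb⟩),
        Finset.card_erase_of_mem ha]
      omega)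
    (by simp) (by simp)
  rw [hX] at hv
  have main : ∀ x ∈ Mn D F Hb, x ∈ U → x ∈ P := fun x hx hxU => by_contra fun hxP =>
    miss h h0 hd cn hA hB he.ne (hcard ▸ y3) (fun k => hcard ▸ y4' k) hP hp hx ⟨hxU, hxP⟩
      (hv x ⟨hxU, hxP⟩).1
  refine ⟨P, hp.congr fun u hu v hv a => a.2 (hP hu) (hP hv), hP, fun x hx h2 => ?_⟩
  rcases ins_mn h hx h2 with hm | ⟨hxC, hxH⟩
  · exact main x hm (Or.inl hx)
  by_contra hxP
  have x3 := fcard h (hC x hxC)
  have hxU : x ∈ U \ P := ⟨Or.inl hx, hxP⟩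
  have hvx := (hv x hxU).2 (ht x hxC hxH)
  set S1 := At (Om F Hb U) (U \ P) P x
  set S2 := At (Om F Hb U) (U \ P) {z | St Hb z T0 ∧ z ≠ g a ∧ z ≠ g b} x
  have cor : ∀ w ∈ x, ({w} : Finset V) ∈ S1 ∨ ({w} : Finset V) ∈ S2 := by
    intro w hw
    have wH : w ∉ Hb := Finset.disjoint_left.1 hxH hw
    have s : St Hb {w} x := (st3 x3).2 ⟨by simpa using hw, Or.inl ⟨by simp, by simpa using wH⟩⟩
    have wM : ({w} : Finset V) ∈ Mn D F Hb := Or.inl ⟨w, cx_sub h hx.1 hw, wH, rfl⟩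
    have a' : (Om F Hb U).Adj x {w} := om_tk hx.1 (st_cx s hx.1) (Or.inr s)
    by_cases wU : ({w} : Finset V) ∈ U
    · exact Or.inl ⟨main _ wM wU, x, Conn.refl _ _, a'⟩
    · have ws : ({w} : Finset V) ⊆ T0 := by_contra fun k => wU (Or.inl (mn_ins h hd wM k))
      exact Or.inr ⟨⟨(st3 c3).2 ⟨ws, Or.inl ⟨by simp, by simpa using wH⟩⟩,
        fun e => wU (Or.inr (Or.inl e)), fun e => wU (Or.inr (Or.inr e))⟩, x, Conn.refl _ _, a'⟩
  rcases hvx with k | k
  · have hs : (fun w => ({w} : Finset V)) '' x ⊆ S1 ∪ S2 := by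
      rintro _ ⟨w, hw, rfl⟩
      exact cor w hw
    have h5 := (ncard_le_ncard hs (toFinite _)).trans (ncard_union_le _ _)
    rw [ncard_image_of_injective _ Finset.singleton_injective, ncard_coe_finset] at h5
    omega
  · obtain ⟨u, hu, w, hw, huw, su, sw⟩ : ∃ u ∈ x, ∃ w ∈ x, u ≠ w ∧ ({u} : Finset V) ∈ S2 ∧
        ({w} : Finset V) ∈ S2 := by
      have k' : ∀ u ∈ x, ∀ w ∈ x, u ≠ w → ({u} : Finset V) ∈ S2 ∨ ({w} : Finset V) ∈ S2 := by
        intro u hu w hw huw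
        rcases cor u hu with a1 | a1
        · rcases cor w hw with a2 | a2
          · exact absurd (Finset.singleton_injective
              ((ncard_le_one_iff (toFinite _)).1 k a1 a2)) huw
          · exact Or.inr a2
        · exact Or.inl a1
      obtain ⟨p, q, r, n1, n2, n3, e⟩ := Finset.card_eq_three.1 x3
      have hp' : p ∈ x := by simp [e]
      have hq' : q ∈ x := by simp [e]
      have hr' : r ∈ x := by simp [e]
      rcases k' p hp' q hq' n1 with a1 | a1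
      · rcases k' q hq' r hr' n3 with a2 | a2
        exacts [⟨p, hp', q, hq', n1, a1, a2⟩, ⟨p, hp', r, hr', n2, a1, a2⟩]
      · rcases k' p hp' r hr' n2 with a2 | a2
        exacts [⟨p, hp', q, hq', n1, a2, a1⟩, ⟨q, hq', r, hr', n3, a1, a2⟩]
    have u0 : u ∈ T0 := su.1.1.1 (by simp)
    have w0 : w ∈ T0 := sw.1.1.1 (by simp)
    obtain ⟨z, hz⟩ : ∃ z, T0 \ {u, w} = {z} := by
      rw [← Finset.card_eq_one, Finset.card_sdiff_of_subset (by
        simp [Finset.insert_subset_iff, u0, w0]), Finset.card_pair huw, c3]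
    have tz : ∀ y ∈ T0, y = u ∨ y = w ∨ y = z := by
      intro y hy
      by_cases k1 : y ∈ ({u, w} : Finset V)
      · rcases Finset.mem_insert.1 k1 with e | e
        exacts [Or.inl e, Or.inr (Or.inl (Finset.mem_singleton.1 e))]
      · exact Or.inr (Or.inr (Finset.mem_singleton.1 (hz ▸ Finset.mem_sdiff.2 ⟨hy, k1⟩)))
    have z0 : z ∈ T0 := (Finset.mem_sdiff.1 (hz ▸ Finset.mem_singleton_self z)).1
    have uH : u ∉ Hb := Finset.disjoint_left.1 hxH hu
    have wH : w ∉ Hb := Finset.disjoint_left.1 hxH hw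
    have ends : ∀ E, St Hb E T0 → {u} ≠ E → {w} ≠ E →
        (E = {z} ∧ z ∉ Hb) ∨ (E.card = 2 ∧ z ∈ Hb) := by
      intro E hE n1 n2
      rcases ((st3 c3).1 hE).2 with ⟨k1, k2⟩ | ⟨k1, k2⟩
      · obtain ⟨y, rfl⟩ := Finset.card_eq_one.1 k1
        rcases tz y (hE.1 (by simp)) with rfl | rfl | rfl
        · exact absurd rfl n1
        · exact absurd rfl n2
        · exact Or.inl ⟨rfl, by simpa using k2⟩
      · obtain ⟨y, k3, k4⟩ := Finset.not_disjoint_iff.1 k2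
        rcases tz y (hE.1 k3) with rfl | rfl | rfl
        · exact absurd k4 uH
        · exact absurd k4 wH
        · exact Or.inr ⟨k1, k4⟩
    rcases ends _ hA su.1.2.1 sw.1.2.1 with ⟨e1, z1⟩ | ⟨e1, z1⟩ <;>
      rcases ends _ hB su.1.2.2 sw.1.2.2 with ⟨e2, z2⟩ | ⟨e2, z2⟩
    · exact he.ne (e1.trans e2.symm)
    · exact z1 z2
    · exact z2 z1
    · obtain ⟨T', k1, k2⟩ := he.exc e1 e2 (Finset.card_eq_one.2 ⟨z, by
        ext y
        simp only [Finset.mem_inter, Finset.mem_singleton]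
        refine ⟨fun ⟨k1, k2⟩ => ?_, fun e => e ▸ ⟨z0, z1⟩⟩
        rcases tz y k1 with rfl | rfl | rfl
        exacts [absurd k2 uH, absurd k2 wH, rfl]⟩) x hxC hxH (by
        intro y hy
        rcases tz y (Finset.mem_sdiff.1 hy).1 with rfl | rfl | rfl
        exacts [hu, hw, absurd z1 (Finset.mem_sdiff.1 hy).2])
      exact nl T' k1 x k2

end Pool.Agent.MP_856573_co.H74
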